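import Pool.Agent.H8.AV3.Stmts5

/-!
# LLG3: not more pairs (lattice, good point), over `F(t)`
-/

set_option autoImplicit false

namespace Pool.Agent.H22.AV3C

open Polynomial Matrix Pool.AVR

theorem llg3_thm (hLCL : Pool.AV3.LCL3Stmt) (hTRB : Pool.AV3.TRB3Stmt) :
    Pool.AV3.LLG3Stmt := by
  intro F _ I ϖ L _ O ι hc N a b c hd c₀ hcls M g v hK hE
  obtain ⟨_, h2, h3⟩ := hTRB F I ϖ L O ι hc
  refine hLCL L O (ι ϖ) hc.loc N a b c hd (fun i => ι (c₀ i)) hcls M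
    (fun i => (g i).map ι) (fun i j => ι (v i j)) (fun i => h2 c₀ (g i) (v i) (hK i)) ?_
  intro i j hij hEq
  exact hE i j hij (h3 (g i) (g j) (v i) (v j) (hK i).1 (hK j).1 (hK i).2.2.1 (hK j).2.2.1 hEq)

end Pool.Agent.H22.AV3C
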